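import Pool.Agent.helper12.SP.Defs
import Pool.Agent.helper12.SP.E

/-!
# Module G: blocks of the automaton

`geo`: summing the local operation over the multipliers gives the block of the automaton reached after
one more block step.  `lv_eq`: the cells of the leaf blocks.
-/

set_option autoImplicit false

namespace Pool.Agent.helper12.SP

/-- one-hot coding of the block reached by `c` moves to the left, after `l` block steps -/
def bval (p κ q M X Z l c : ℕ) : ℕ → ℕ → ZMod p := fun i a =>
  if i < 2 * κ ∧ nconf q M X Z (l * κ) (((κ : ℤ) - c) * (2 * κ) + i - l * κ) = a then 1 else 0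

/-- the local operation -/
def floc (N p κ q M m : ℕ) (y1 y2 : ℕ → ℕ → ZMod p) : ℕ → ℕ → ZMod p := fun i a =>
  if i < 2 * κ then ∑ z ∈ Finset.range (q ^ (2 * (2 * κ))),
    if dg N q (gi N q M (2 * (2 * κ)) z κ) (2 * κ + i) = a then
      - (m : ZMod p) ^ (p - 1 - 2 * (2 * κ)) * ∏ j ∈ Finset.range (2 * (2 * κ)),
        (if j < 2 * κ then y2 (j % (2 * κ)) (dg N q z j) else y1 (j % (2 * κ)) (dg N q z j))
    else 0
  else 0

namespace G

theorem dg_small {N a s r : ℕ} (h : a ^ r ≤ N) : dg N a s r = s / a ^ r % a := by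
  unfold dg pw
  rw [min_eq_left h]

theorem dg_lt_cap {N a s r : ℕ} (h : s < N) : dg N a s r = s / a ^ r % a := by
  unfold dg pw
  rcases le_or_gt (a ^ r) N with h' | h'
  · rw [min_eq_left h']
  · rw [min_eq_right h'.le, Nat.div_eq_of_lt h, Nat.div_eq_of_lt (h.trans h')]

/-- the number with the digits `d` -/
def cod (q D : ℕ) (d : ℕ → ℕ) : ℕ := ∑ j ∈ Finset.range D, d j * q ^ j

theorem cod_lt {q D : ℕ} {d : ℕ → ℕ} (h : ∀ j < D, d j < q) : cod q D d < q ^ D := by
  induction D with
  | zero => simp [cod]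
  | succ D ih =>
    unfold cod at *
    rw [Finset.sum_range_succ, pow_succ]
    have h1 := ih (fun j hj => h j (by omega))
    have h2 : d D + 1 ≤ q := h D (by omega)
    have h3 : (d D + 1) * q ^ D ≤ q * q ^ D := Nat.mul_le_mul_right _ h2
    nlinarith

theorem cod_digit {q D : ℕ} {d : ℕ → ℕ} (h : ∀ j < D, d j < q) {r : ℕ} (hr : r < D) :
    cod q D d / q ^ r % q = d r := by
  induction D with
  | zero => omega
  | succ D ih =>
    have hq : 0 < q := lt_of_le_of_lt (Nat.zero_le _) (h r hr)
    have hsplit : cod q (D + 1) d = cod q D d + d D * q ^ D := by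
      unfold cod; rw [Finset.sum_range_succ]
    rcases Nat.lt_succ_iff_lt_or_eq.mp hr with h' | h'
    · rw [hsplit]
      have h1 := ih (fun j hj => h j (by omega)) h'
      obtain ⟨k, hk⟩ : ∃ k, D = r + 1 + k := ⟨D - r - 1, by omega⟩
      have h2 : d D * q ^ D = q ^ r * (q * (d D * q ^ k)) := by
        conv_lhs => rw [hk]
        rw [pow_add, pow_succ, ← hk]; ring
      rw [h2, Nat.add_mul_div_left _ _ (pow_pos hq r), Nat.add_mul_mod_self_left, h1]
    · subst h'
      rw [hsplit, mul_comm (d r), Nat.add_mul_div_left _ _ (pow_pos hq r),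
        Nat.div_eq_of_lt (cod_lt (fun j hj => h j (by omega))), zero_add,
        Nat.mod_eq_of_lt (h r hr)]

theorem cod_digits (q z D : ℕ) : cod q D (fun j => z / q ^ j % q) = z % q ^ D := by
  induction D with
  | zero => simp [cod, Nat.mod_one]
  | succ D ih =>
    have hsplit : cod q (D + 1) (fun j => z / q ^ j % q)
        = cod q D (fun j => z / q ^ j % q) + z / q ^ D % q * q ^ D := by
      unfold cod; rw [Finset.sum_range_succ]
    rw [hsplit, ih, Nat.mod_pow_succ, mul_comm]

/-- the only number below `q ^ D` with the digits `d` is `cod q D d` -/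
theorem eq_cod_iff {q D : ℕ} {d : ℕ → ℕ} (h : ∀ j < D, d j < q) {z : ℕ} (hz : z < q ^ D) :
    (∀ j < D, d j = z / q ^ j % q) ↔ z = cod q D d := by
  constructor
  · intro H
    have h1 := cod_digits q z D
    rw [Nat.mod_eq_of_lt hz] at h1
    rw [← h1]
    unfold cod
    refine Finset.sum_congr rfl (fun j hj => ?_)
    dsimp only
    rw [← H j (Finset.mem_range.mp hj)]
  · rintro rfl j hj
    exact (cod_digit h hj).symm

theorem nconf_lt {q M X Z : ℕ} (hq : 5 ≤ q) (t : ℕ) (x : ℤ) : nconf q M X Z t x < q := by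
  cases t with
  | zero =>
    unfold nconf ncell
    rcases x with i | i
    · dsimp only
      split_ifs
      · have := Nat.mod_lt (X / 2 ^ i) (by norm_num : (2:ℕ) > 0)
        omega
      · omega
    · dsimp only
      split_ifs
      · have := Nat.mod_lt (Z / 2 ^ i) (by norm_num : (2:ℕ) > 0)
        omega
      · omega
  | succ t =>
    unfold nconf ntr
    exact Nat.mod_lt _ (by omega)

/-- the digits of one step of the automaton on an array -/
theorem gs_eq_cod {N q M D z : ℕ} (hq : 0 < q) (hN : q ^ D ≤ N) :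
    gs N q M D z = cod q D (fun y => if 2 ≤ y then
      dg N q M ((dg N q z (y - 2) * q + dg N q z (y - 1)) * q + dg N q z y) else 0) := by
  unfold gs cod
  refine Finset.sum_congr rfl (fun y hy => ?_)
  have h : q ^ y ≤ N := (Nat.pow_le_pow_right hq (Finset.mem_range.mp hy).le).trans hN
  rw [show pw N q y = q ^ y from min_eq_left h]

theorem dg_lt {N a s r : ℕ} (ha : 0 < a) : dg N a s r < a := Nat.mod_lt _ ha

/-- the array of the cells of the automaton after `m` steps, in skewed coordinates -/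
theorem gi_digit {N q M X Z D : ℕ} (hq : 5 ≤ q) (hN : q ^ D ≤ N) (hM : M < N) (t : ℕ) (b : ℤ)
    (z : ℕ) (hz : ∀ j < D, dg N q z j = nconf q M X Z t (b + j - t)) (m : ℕ) :
    ∀ y < D, 2 * m ≤ y →
      dg N q (gi N q M D z m) y = nconf q M X Z (t + m) (b + y - (t + m : ℕ)) := by
  induction m with
  | zero =>
    intro y hy _
    simpa [gi] using hz y hy
  | succ m ih =>
    intro y hy hmy
    have hq0 : 0 < q := by omega
    have h1 : gi N q M D z (m + 1) = gs N q M D (gi N q M D z m) := rfl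
    have h2 : q ^ y ≤ N := (Nat.pow_le_pow_right hq0 hy.le).trans hN
    rw [h1, gs_eq_cod hq0 hN, dg_small h2, cod_digit _ hy]
    · rw [if_pos (by omega), ih (y - 2) (by omega) (by omega), ih (y - 1) (by omega) (by omega),
        ih y hy (by omega), dg_lt_cap hM]
      have e1 : (b + ((y - 2 : ℕ) : ℤ) - ((t + m : ℕ) : ℤ))
          = (b + y - ((t + (m + 1) : ℕ) : ℤ)) - 1 := by push_cast; omega
      have e2 : (b + ((y - 1 : ℕ) : ℤ) - ((t + m : ℕ) : ℤ))
          = (b + y - ((t + (m + 1) : ℕ) : ℤ)) := by push_cast; omega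
      have e3 : (b + (y : ℤ) - ((t + m : ℕ) : ℤ))
          = (b + y - ((t + (m + 1) : ℕ) : ℤ)) + 1 := by push_cast; omega
      rw [e1, e2, e3]
      rfl
    · intro j _
      split_ifs
      · exact dg_lt hq0
      · exact hq0

end G

theorem geo {N p κ q M X Z : ℕ} (hp : p.Prime) (h1 : 4 * κ + 2 ≤ p) (hκ : 1 ≤ κ) (hq : 5 ≤ q)
    (hN : q ^ (4 * κ) ≤ N) (hM : M < N) (l c : ℕ) (R1 R2 : ℕ → ℕ → ZMod p) :
    ∑ m ∈ Finset.range p, floc N p κ q M (m + 1) (R1 + (m + 1) • bval p κ q M X Z l c)
      (R2 + (m + 1) • bval p κ q M X Z l (c + 1)) = bval p κ q M X Z (l + 1) c := by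
  have : Fact p.Prime := ⟨hp⟩
  have hD : 2 * (2 * κ) = 4 * κ := by ring
  have hq0 : 0 < q := by omega
  -- the cells of the two blocks
  set base : ℤ := ((κ : ℤ) - c - 1) * (2 * κ) with hbase
  set v : ℕ → ℕ := fun j => nconf q M X Z (l * κ) (base + j - (l * κ : ℕ)) with hv
  have hvq : ∀ j < 4 * κ, v j < q := fun j _ => G.nconf_lt hq _ _
  funext i a
  rw [Finset.sum_apply, Finset.sum_apply]
  unfold floc
  by_cases hi : i < 2 * κ
  swap
  · simp only [if_neg hi, Finset.sum_const_zero, bval]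
    rw [if_neg (by tauto)]
  simp only [if_pos hi]
  rw [Finset.sum_comm, hD]
  -- the term of `z`
  have key : ∀ z ∈ Finset.range (q ^ (4 * κ)),
      (∑ m ∈ Finset.range p, if dg N q (gi N q M (4 * κ) z κ) (2 * κ + i) = a then
        - ((m + 1 : ℕ) : ZMod p) ^ (p - 1 - 4 * κ) * ∏ j ∈ Finset.range (4 * κ),
          (if j < 2 * κ then (R2 + (m + 1) • bval p κ q M X Z l (c + 1)) (j % (2 * κ)) (dg N q z j)
            else (R1 + (m + 1) • bval p κ q M X Z l c) (j % (2 * κ)) (dg N q z j))
        else 0) =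
      if z = G.cod q (4 * κ) v then
        (if dg N q (gi N q M (4 * κ) (G.cod q (4 * κ) v) κ) (2 * κ + i) = a then 1 else 0)
      else 0 := by
    intro z hz
    have hz' : z < q ^ (4 * κ) := Finset.mem_range.mp hz
    have hprod : ∏ j ∈ Finset.range (4 * κ), (if v j = dg N q z j then (1 : ZMod p) else 0)
        = if z = G.cod q (4 * κ) v then 1 else 0 := by
      by_cases hzc : z = G.cod q (4 * κ) v
      · rw [if_pos hzc]
        refine Finset.prod_eq_one (fun j hj => ?_)
        have hj' : j < 4 * κ := Finset.mem_range.mp hj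
        rw [if_pos]
        rw [G.dg_small ((Nat.pow_le_pow_right hq0 hj'.le).trans hN)]
        exact (G.eq_cod_iff hvq hz').mpr hzc j hj'
      · rw [if_neg hzc]
        have hex : ¬ ∀ j < 4 * κ, v j = z / q ^ j % q := fun H => hzc ((G.eq_cod_iff hvq hz').mp H)
        push Not at hex
        obtain ⟨j, hj, hne⟩ := hex
        refine Finset.prod_eq_zero (Finset.mem_range.mpr hj) ?_
        rw [if_neg]
        rw [G.dg_small ((Nat.pow_le_pow_right hq0 hj.le).trans hN)]
        exact hne
    have hsum : ∑ m ∈ Finset.range p, ((m + 1 : ℕ) : ZMod p) ^ (p - 1 - 4 * κ) *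
        ∏ j ∈ Finset.range (4 * κ),
          (if j < 2 * κ then (R2 + (m + 1) • bval p κ q M X Z l (c + 1)) (j % (2 * κ)) (dg N q z j)
            else (R1 + (m + 1) • bval p κ q M X Z l c) (j % (2 * κ)) (dg N q z j)) =
        - ∏ j ∈ Finset.range (4 * κ), (if v j = dg N q z j then (1 : ZMod p) else 0) := by
      have := sum_mu (p := p) (4 * κ) (by omega) h1
        (fun j => if j < 2 * κ then R2 (j % (2 * κ)) (dg N q z j)
          else R1 (j % (2 * κ)) (dg N q z j))
        (fun j => if v j = dg N q z j then (1 : ZMod p) else 0)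
      rw [← this]
      refine Finset.sum_congr rfl (fun m _ => ?_)
      congr 1
      refine Finset.prod_congr rfl (fun j hj => ?_)
      have hj' : j < 4 * κ := Finset.mem_range.mp hj
      by_cases hj2 : j < 2 * κ
      · have hmod : j % (2 * κ) = j := Nat.mod_eq_of_lt hj2
        have hpos : ((κ : ℤ) - ((c + 1 : ℕ) : ℤ)) * (2 * κ) + ((j : ℕ) : ℤ) - (l : ℤ) * κ
            = base + j - ((l * κ : ℕ) : ℤ) := by
          rw [hbase]; push_cast; ring
        simp only [if_pos hj2, hmod, Pi.add_apply, Pi.smul_apply, bval, hpos, hv]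
        rw [nsmul_eq_mul]
        congr 2
        simp only [hj2, true_and]
      · have hmod : j % (2 * κ) = j - 2 * κ := by
          rw [Nat.mod_eq_sub_mod (by omega), Nat.mod_eq_of_lt (by omega)]
        have hlt : j - 2 * κ < 2 * κ := by omega
        have hpos : ((κ : ℤ) - (c : ℤ)) * (2 * κ) + ((j - 2 * κ : ℕ) : ℤ) - (l : ℤ) * κ
            = base + j - ((l * κ : ℕ) : ℤ) := by
          rw [hbase]; push_cast [Nat.cast_sub (by omega : 2 * κ ≤ j)]; ring
        simp only [if_neg hj2, hmod, Pi.add_apply, Pi.smul_apply, bval, hlt, hpos, true_and]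
        rw [nsmul_eq_mul]
    by_cases hdig : dg N q (gi N q M (4 * κ) z κ) (2 * κ + i) = a
    · simp only [if_pos hdig, neg_mul, Finset.sum_neg_distrib]
      rw [hsum, hprod, neg_neg]
      by_cases hzc : z = G.cod q (4 * κ) v
      · rw [if_pos hzc, if_pos hzc, if_pos (by rw [← hzc]; exact hdig)]
      · rw [if_neg hzc, if_neg hzc]
    · simp only [if_neg hdig, Finset.sum_const_zero]
      by_cases hzc : z = G.cod q (4 * κ) v
      · rw [if_pos hzc, if_neg (by rw [← hzc]; exact hdig)]
      · rw [if_neg hzc]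
  rw [Finset.sum_congr rfl key, Finset.sum_ite_eq' , if_pos (Finset.mem_range.mpr (G.cod_lt hvq))]
  have hfin := G.gi_digit (X := X) (Z := Z) hq hN hM (l * κ) base (G.cod q (4 * κ) v)
    (fun j hj => by
      rw [G.dg_small ((Nat.pow_le_pow_right hq0 hj.le).trans hN), G.cod_digit hvq hj])
    κ (2 * κ + i) (by omega) (by omega)
  rw [hfin]
  unfold bval
  have e1 : (l + 1) * κ = l * κ + κ := by ring
  have e2 : ((κ : ℤ) - (c : ℤ)) * (2 * κ) + (i : ℤ) - ((l + 1 : ℕ) : ℤ) * κ
      = base + ((2 * κ + i : ℕ) : ℤ) - ((l * κ + κ : ℕ) : ℤ) := by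
    rw [hbase]; push_cast; ring
  simp only [hi, true_and, e1, e2]

theorem lv_eq {N κ X Z c i : ℕ} (hX : X < N) (hZ : Z < N) (hi : i < 2 * κ) :
    lv N κ X Z c i = ncell X Z (((κ : ℤ) - c) * (2 * κ) + i) := by
  unfold lv
  by_cases hc : c ≤ κ
  · have e : (((κ : ℤ) - c) * (2 * κ) + i) = Int.ofNat ((κ - c) * (2 * κ) + i) := by
      simp only [Int.ofNat_eq_natCast]
      push_cast [Nat.cast_sub hc]
      ring
    rw [if_pos hc, e]
    simp only [ncell, G.dg_lt_cap hX]
  · have hc' : κ < c := by omega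
    have h3 : 2 * κ ≤ (c - κ) * (2 * κ) := by
      calc 2 * κ = 1 * (2 * κ) := by ring
        _ ≤ (c - κ) * (2 * κ) := Nat.mul_le_mul_right _ (by omega)
    have e : (((κ : ℤ) - c) * (2 * κ) + i) = Int.negSucc ((c - κ) * (2 * κ) - i - 1) := by
      rw [Int.negSucc_eq]
      have h4 : (((c - κ) * (2 * κ) - i - 1 : ℕ) : ℤ) = ((c : ℤ) - κ) * (2 * κ) - i - 1 := by
        rw [Nat.cast_sub (by omega), Nat.cast_sub (by omega)]
        push_cast [Nat.cast_sub hc'.le]
        ring
      rw [h4]; ring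
    rw [if_neg hc, e]
    simp only [ncell, G.dg_lt_cap hZ]

end Pool.Agent.helper12.SP
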